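import Mathlib
import Pool.Agent.V1179.DCyc.Poly
import Pool.Agent.V1179.DCyc.LP
import Pool.Agent.V1179.DCyc.Outer

/-!
# Every outer function of `D^p_{p-1}`, `p > 2`, is cyclic

Let `g` be the outer function with modulus `1 / max (|f|, e^{-N})` on the circle. The functions
`g(rz) f(z)` converge to `g f` in the norm of `D^p_{p-1}` as `r → 1`: the difference
`f(z) - f(rz)` is at most `(1 - r|z|)` times the integral of `|f'(τz)| / (1 - τ|z|)` over `τ < 1`,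
a function which is in `L^p` of the weight by Hardy's inequality. Finally `g f`, which is bounded
by one, converges to a constant as `N → ∞` by the Littlewood-Paley inequality.
-/

set_option autoImplicit false

namespace Pool.Agent.Results.MP_57350d_an.OuterCyclic

open MeasureTheory Set Metric Filter Topology Pool.Agent.V1179.DCyc
open scoped ENNReal

/-- The norm of `D^p_{p-1}`, with values in `[0, ∞]`. -/
noncomputable def normD (p : ℝ) (f : ℂ → ℂ) : ℝ≥0∞ :=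
  ‖f 0‖ₑ + (∫⁻ z in ball (0 : ℂ) 1,
    ENNReal.ofReal ((1 - ‖z‖) ^ (p - 1)) * ‖deriv f z‖ₑ ^ p) ^ (1 / p)

/-- The space `D^p_{p-1}`. -/
def InD (p : ℝ) (f : ℂ → ℂ) : Prop :=
  DifferentiableOn ℂ f (ball 0 1) ∧ normD p f < ∞

/-- `f` is cyclic: the constant `1` is a limit of polynomial multiples of `f`. -/
def Cyclic (p : ℝ) (f : ℂ → ℂ) : Prop :=
  ∃ q : ℕ → Polynomial ℂ, Tendsto (fun n => normD p fun z => (q n).eval z * f z - 1) atTop (𝓝 0)

/-- Outer functions. -/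
def IsOuter (f : ℂ → ℂ) : Prop :=
  ∃ (c : ℂ) (k : ℂ → ℝ), ‖c‖ = 1 ∧ Measurable k ∧ (∀ ζ, 0 ≤ k ζ) ∧
    (∀ᵐ θ : ℝ ∂(volume.restrict (Ioc 0 (2 * Real.pi))), 0 < k (Complex.exp (θ * Complex.I))) ∧
    IntegrableOn (fun θ : ℝ => Real.log (k (Complex.exp (θ * Complex.I)))) (Ioc 0 (2 * Real.pi)) ∧
    ∀ z : ℂ, ‖z‖ < 1 → f z = c * Complex.exp (1 / (2 * Real.pi) *
      ∫ θ in (0 : ℝ)..2 * Real.pi, (Complex.exp (θ * Complex.I) + z) /
        (Complex.exp (θ * Complex.I) - z) * (Real.log (k (Complex.exp (θ * Complex.I))) : ℂ))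

theorem lint_eq (p : ℝ) (g : ℂ → ℂ) :
    ∫⁻ z in ball (0 : ℂ) 1, ENNReal.ofReal ((1 - ‖z‖) ^ (p - 1)) * ‖g z‖ₑ ^ p =
      ∫⁻ z, ‖g z‖ₑ ^ p ∂(nu p) := (lint_nu p _).symm

theorem outer_rep {f : ℂ → ℂ} (ho : IsOuter f) : ∃ (c : ℂ) (φ : ℂ → ℝ), ‖c‖ = 1 ∧
    CircleIntegrable φ 0 1 ∧ ∀ z : ℂ, ‖z‖ < 1 → f z = c * Complex.exp (Hz φ z) := by
  obtain ⟨c, k, hc, -, -, -, hint, hform⟩ := ho
  have hcm : ∀ θ : ℝ, circleMap 0 1 θ = Complex.exp (θ * Complex.I) := by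
    intro θ
    simp [circleMap]
  refine ⟨c, fun ζ => Real.log (k ζ), hc, ?_, fun z hz => ?_⟩
  · unfold CircleIntegrable
    simp_rw [hcm]
    rw [intervalIntegrable_iff_integrableOn_Ioc_of_le (by positivity)]
    exact hint
  · rw [hform z hz]
    congr 2
    unfold Hz Real.circleAverage
    rw [Complex.real_smul]
    push_cast
    rw [one_div]
    congr 1
    apply intervalIntegral.integral_congr
    intro θ _
    simp only
    rw [hcm, herglotzRieszKernel_def, smul_eq_mul, sub_zero, sub_zero]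

/-- For each `N` a bounded analytic multiplier `g` for which `g f` is bounded by `1`. -/
theorem exists_mult {f : ℂ → ℂ} (ho : IsOuter f) : ∃ (g : ℕ → ℂ → ℂ) (B : ℕ → ℝ),
    (∀ N, DifferentiableOn ℂ (g N) (ball 0 1)) ∧ (∀ N (z : ℂ), ‖z‖ < 1 → ‖g N z‖ ≤ B N) ∧
    (∀ N (z : ℂ), ‖z‖ < 1 → ‖g N z * f z‖ ≤ 1) ∧
    Tendsto (fun N => g N 0 * f 0) atTop (𝓝 1) := by
  obtain ⟨c, φ, hc, hφ, hf⟩ := outer_rep ho
  have hc0 : c ≠ 0 := by
    rintro rfl
    simp at hc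
  have hψ : ∀ N : ℕ, CircleIntegrable (fun ζ => -max (φ ζ) (-(N : ℝ))) 0 1 := fun N =>
    (ci_max hφ (-(N : ℝ))).neg
  have hprod : ∀ (N : ℕ) (z : ℂ), ‖z‖ < 1 →
      (c⁻¹ * Complex.exp (Hz (fun ζ => -max (φ ζ) (-(N : ℝ))) z)) * f z =
        Complex.exp (Hz (fun ζ => min (φ ζ + N) 0) z) := by
    intro N z hz
    rw [hf z hz]
    have h1 : (fun ζ => min (φ ζ + N) 0) = fun ζ => φ ζ + -max (φ ζ) (-(N : ℝ)) := by
      funext ζ
      rcases le_total (φ ζ) (-(N : ℝ)) with h | h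
      · rw [max_eq_right h, min_eq_left (by linarith)]
        ring
      · rw [max_eq_left h, min_eq_right (by linarith)]
        ring
    rw [h1, Hz_add hφ (hψ N) hz, Complex.exp_add]
    field_simp
  have hχ : ∀ N : ℕ, CircleIntegrable (fun ζ => min (φ ζ + N) 0) 0 1 := by
    intro N
    have h1 : (fun ζ => min (φ ζ + N) 0) = fun ζ => φ ζ + -max (φ ζ) (-(N : ℝ)) := by
      funext ζ
      rcases le_total (φ ζ) (-(N : ℝ)) with h | h
      · rw [max_eq_right h, min_eq_left (by linarith)]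
        ring
      · rw [max_eq_left h, min_eq_right (by linarith)]
        ring
    rw [h1]
    exact hφ.add (hψ N)
  refine ⟨fun N z => c⁻¹ * Complex.exp (Hz (fun ζ => -max (φ ζ) (-(N : ℝ))) z),
    fun N => Real.exp N, ?_, ?_, ?_, ?_⟩
  · intro N
    exact (Hz_diff (hψ N)).cexp.const_mul _
  · intro N z hz
    simp only
    rw [norm_mul, norm_inv, hc, inv_one, one_mul, Complex.norm_exp]
    apply Real.exp_le_exp.2
    apply Hz_re_le (hψ N) _ hz
    intro ζ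
    have := le_max_right (φ ζ) (-(N : ℝ))
    linarith
  · intro N z hz
    simp only
    rw [hprod N z hz, Complex.norm_exp, Real.exp_le_one_iff]
    exact Hz_re_le (hχ N) (fun ζ => min_le_right _ _) hz
  · have h1 : ∀ N : ℕ, (c⁻¹ * Complex.exp (Hz (fun ζ => -max (φ ζ) (-(N : ℝ))) 0)) * f 0 =
        Complex.exp (((Real.circleAverage (fun ζ => min (φ ζ + N) 0) 0 1 : ℝ)) : ℂ) := by
      intro N
      rw [hprod N 0 (by simp), Hz_zero]
    simp only [h1]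
    have h2 := avg_tendsto hφ
    have h3 := (Complex.continuous_exp.tendsto _).comp ((Complex.continuous_ofReal.tendsto _).comp h2)
    rw [Complex.ofReal_zero, Complex.exp_zero] at h3
    exact h3

theorem norm3 {p : ℝ} (hp : 1 ≤ p) {a b c : ℂ → ℂ} (ha : AEMeasurable a (nu p))
    (hb : AEMeasurable b (nu p)) (hc : AEMeasurable c (nu p)) {d : ℂ → ℂ}
    (hd : ∀ z : ℂ, ‖z‖ < 1 → d z = (a z - b z) + (b z - c z) + c z) :
    (∫⁻ z, ‖d z‖ₑ ^ p ∂(nu p)) ^ (1 / p) ≤ (∫⁻ z, ‖a z - b z‖ₑ ^ p ∂(nu p)) ^ (1 / p) +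
      (∫⁻ z, ‖b z - c z‖ₑ ^ p ∂(nu p)) ^ (1 / p) + (∫⁻ z, ‖c z‖ₑ ^ p ∂(nu p)) ^ (1 / p) := by
  have h1 : ∫⁻ z, ‖d z‖ₑ ^ p ∂(nu p) ≤
      ∫⁻ z, (((fun z => ‖a z - b z‖ₑ) + fun z => ‖b z - c z‖ₑ) + fun z => ‖c z‖ₑ) z ^ p
        ∂(nu p) := by
    apply lintegral_mono_ae
    apply ae_nu_of_ball
    intro z hz
    rw [hd z hz]
    simp only [Pi.add_apply]
    gcongr
    refine (enorm_add_le _ _).trans ?_
    gcongr
    exact enorm_add_le _ _
  calc (∫⁻ z, ‖d z‖ₑ ^ p ∂(nu p)) ^ (1 / p)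
      ≤ (∫⁻ z, (((fun z => ‖a z - b z‖ₑ) + fun z => ‖b z - c z‖ₑ) + fun z => ‖c z‖ₑ) z ^ p
        ∂(nu p)) ^ (1 / p) := by gcongr
    _ ≤ (∫⁻ z, ((fun z => ‖a z - b z‖ₑ) + fun z => ‖b z - c z‖ₑ) z ^ p ∂(nu p)) ^ (1 / p) +
        (∫⁻ z, ‖c z‖ₑ ^ p ∂(nu p)) ^ (1 / p) :=
        ENNReal.lintegral_Lp_add_le ((ha.sub hb).enorm.add (hb.sub hc).enorm) hc.enorm hp
    _ ≤ _ := by
        gcongr
        exact ENNReal.lintegral_Lp_add_le (ha.sub hb).enorm (hb.sub hc).enorm hp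

theorem cyclic_eps {p : ℝ} (hp : 2 < p) {f : ℂ → ℂ} (ho : IsOuter f) (hf : InD p f)
    {ε : ℝ≥0∞} (hε : 0 < ε) :
    ∃ q : Polynomial ℂ, normD p (fun z => q.eval z * f z - 1) < ε := by
  have hp0 : 0 < p := by linarith
  have hpi := Real.pi_pos
  obtain ⟨g, B, hg, hgB, hgf, hlim⟩ := exists_mult ho
  obtain ⟨hfd, hfn⟩ := hf
  have hfin : ∫⁻ z, ‖deriv f z‖ₑ ^ p ∂(nu p) < ∞ := by
    unfold normD at hfn
    rw [lint_eq] at hfn
    have h1 := lt_of_le_of_lt le_add_self hfn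
    rwa [ENNReal.rpow_lt_top_iff_of_pos (by positivity)] at h1
  have hFd : ∀ N, DifferentiableOn ℂ (fun w => g N w * f w) (ball 0 1) := fun N =>
    (hg N).mul hfd
  have hFle : ∀ N, ∫⁻ z, ‖deriv (fun w => g N w * f w) z‖ₑ ^ p ∂(nu p) ≤
      ENNReal.ofReal (Real.pi * (1 - ‖g N 0 * f 0‖ ^ 2)) := fun N =>
    deriv_le hp (hFd N) (hgf N) (fun z hz => cauchy_est (hFd N) (hgf N) hz)
  -- the choice of `N`
  have hε3 : 0 < ε / 3 := ENNReal.div_pos hε.ne' (by norm_num)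
  have hε4 : 0 < ε / 3 / 2 := ENNReal.half_pos hε3.ne'
  have t1 : Tendsto (fun N => ‖g N 0 * f 0 - 1‖ₑ +
      ENNReal.ofReal (Real.pi * (1 - ‖g N 0 * f 0‖ ^ 2)) ^ (1 / p)) atTop (𝓝 0) := by
    have h1 : Tendsto (fun N => ‖g N 0 * f 0 - 1‖ₑ) atTop (𝓝 0) := by
      have := (hlim.sub_const 1).enorm
      simpa using this
    have h2 : Tendsto (fun N => Real.pi * (1 - ‖g N 0 * f 0‖ ^ 2)) atTop (𝓝 0) := by
      have := ((hlim.norm.pow 2).const_sub 1).const_mul Real.pi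
      simpa using this
    have h3 := (ENNReal.continuous_rpow_const (y := 1 / p)).tendsto _ |>.comp
      ((ENNReal.continuous_ofReal.tendsto _).comp h2)
    rw [ENNReal.ofReal_zero, ENNReal.zero_rpow_of_pos (by positivity)] at h3
    simpa using h1.add h3
  obtain ⟨N, hN⟩ := (t1.eventually (gt_mem_nhds hε3)).exists
  -- the choice of the radius
  have t2 := conv_main hp hfd (hg N) (hgB N) hfin ((hFle N).trans_lt ENNReal.ofReal_lt_top)
  have hεp : 0 < (ε / 3) ^ p := ENNReal.rpow_pos_of_nonneg hε3 hp0.le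
  obtain ⟨n, hn⟩ := (t2.eventually (gt_mem_nhds hεp)).exists
  obtain ⟨q, hq0, hq⟩ := poly_approx hp hfd (hg N) hfin (rr_pos n) (rr_lt n) hεp
  refine ⟨q, ?_⟩
  have hroot : ∀ x : ℝ≥0∞, x < (ε / 3) ^ p → x ^ (1 / p) < ε / 3 := by
    intro x hx
    have h1 := ENNReal.rpow_lt_rpow hx (by positivity : 0 < 1 / p)
    rwa [← ENNReal.rpow_mul, mul_one_div_cancel hp0.ne', ENNReal.rpow_one] at h1
  unfold normD
  rw [lint_eq]
  have hder : ∀ z : ℂ, ‖z‖ < 1 → deriv (fun z => q.eval z * f z - 1) z =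
      (deriv (fun w => q.eval w * f w) z - deriv (fun w => g N (rr n * w) * f w) z) +
      (deriv (fun w => g N (rr n * w) * f w) z - deriv (fun w => g N w * f w) z) +
      deriv (fun w => g N w * f w) z := by
    intro z hz
    rw [deriv_sub_const]
    ring
  have hmeas : ∀ h : ℂ → ℂ, DifferentiableOn ℂ h (ball 0 1) → AEMeasurable (deriv h) (nu p) :=
    fun h _ => (measurable_deriv h).aemeasurable
  have h4 := norm3 (p := p) (by linarith) (measurable_deriv (fun w => q.eval w * f w)).aemeasurable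
    (measurable_deriv (fun w => g N (rr n * w) * f w)).aemeasurable
    (measurable_deriv (fun w => g N w * f w)).aemeasurable hder
  have h5 : (q.eval 0 * f 0 - 1) = g N 0 * f 0 - 1 := by rw [hq0]
  calc ‖q.eval 0 * f 0 - 1‖ₑ +
        (∫⁻ z, ‖deriv (fun z => q.eval z * f z - 1) z‖ₑ ^ p ∂(nu p)) ^ (1 / p)
      ≤ ‖g N 0 * f 0 - 1‖ₑ + ((∫⁻ z, ‖deriv (fun w => q.eval w * f w) z -
          deriv (fun w => g N (rr n * w) * f w) z‖ₑ ^ p ∂(nu p)) ^ (1 / p) +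
        (∫⁻ z, ‖deriv (fun w => g N (rr n * w) * f w) z -
          deriv (fun w => g N w * f w) z‖ₑ ^ p ∂(nu p)) ^ (1 / p) +
        (∫⁻ z, ‖deriv (fun w => g N w * f w) z‖ₑ ^ p ∂(nu p)) ^ (1 / p)) := by
        rw [h5]
        gcongr
    _ ≤ ‖g N 0 * f 0 - 1‖ₑ + ((∫⁻ z, ‖deriv (fun w => q.eval w * f w) z -
          deriv (fun w => g N (rr n * w) * f w) z‖ₑ ^ p ∂(nu p)) ^ (1 / p) +
        (∫⁻ z, ‖deriv (fun w => g N (rr n * w) * f w) z -
          deriv (fun w => g N w * f w) z‖ₑ ^ p ∂(nu p)) ^ (1 / p) +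
        ENNReal.ofReal (Real.pi * (1 - ‖g N 0 * f 0‖ ^ 2)) ^ (1 / p)) := by
        gcongr
        exact hFle N
    _ = (∫⁻ z, ‖deriv (fun w => q.eval w * f w) z -
          deriv (fun w => g N (rr n * w) * f w) z‖ₑ ^ p ∂(nu p)) ^ (1 / p) +
        (∫⁻ z, ‖deriv (fun w => g N (rr n * w) * f w) z -
          deriv (fun w => g N w * f w) z‖ₑ ^ p ∂(nu p)) ^ (1 / p) +
        (‖g N 0 * f 0 - 1‖ₑ + ENNReal.ofReal (Real.pi * (1 - ‖g N 0 * f 0‖ ^ 2)) ^ (1 / p)) := by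
        ring
    _ < ε / 3 + ε / 3 + ε / 3 :=
        ENNReal.add_lt_add (ENNReal.add_lt_add (hroot _ hq) (hroot _ hn)) hN
    _ = ε := ENNReal.add_thirds ε

/-- Every outer function in `D^p_{p-1}`, `p > 2`, is cyclic in `D^p_{p-1}`. -/
theorem result (p : ℝ) (hp : 2 < p) (f : ℂ → ℂ) (ho : IsOuter f) (hf : InD p f) :
    Cyclic p f := by
  have h1 : ∀ n : ℕ, ∃ q : Polynomial ℂ, normD p (fun z => q.eval z * f z - 1) <
      ENNReal.ofReal (1 / ((n : ℝ) + 1)) := fun n =>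
    cyclic_eps hp ho hf (ENNReal.ofReal_pos.2 (by positivity))
  choose q hq using h1
  refine ⟨q, ?_⟩
  have h2 : Tendsto (fun n : ℕ => ENNReal.ofReal (1 / ((n : ℝ) + 1))) atTop (𝓝 0) := by
    have := (ENNReal.continuous_ofReal.tendsto _).comp tendsto_one_div_add_atTop_nhds_zero_nat
    simpa [Function.comp_def] using this
  exact tendsto_of_tendsto_of_tendsto_of_le_of_le tendsto_const_nhds h2 (fun n => zero_le)
    fun n => (hq n).le

end Pool.Agent.Results.MP_57350d_an.OuterCyclic
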